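import Pool.Agent.Helper83.HL.St
import Pool.Agent.Helper15.AB.M_MT

/-!
# Project HL, module F1 (helper51)

A Mertens bound: the primes `p ≤ m` with `m < p ^ A` have `∑ 1 / p ≥ 1`.
-/

set_option autoImplicit false

namespace Pool.Agent.Helper51.HL

open Pool.Agent.Helper83.HL Finset

theorem mF1 : StF1 := by
  classical
  obtain ⟨C, hC, hM⟩ := Pool.Agent.Helper15.AB.hMT
  set A : ℕ := ⌈Real.exp (2 * C + 1)⌉₊ + 1 with hA
  have hA1 : 1 ≤ A := by omega
  have hA0 : (0 : ℝ) < A := by exact_mod_cast hA1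
  have hlogA : 2 * C + 1 ≤ Real.log A := by
    rw [Real.le_log_iff_exp_le hA0]
    have h := Nat.le_ceil (Real.exp (2 * C + 1))
    have h2 : ((⌈Real.exp (2 * C + 1)⌉₊ : ℕ) : ℝ) ≤ (A : ℝ) := by exact_mod_cast (by omega)
    exact h.trans h2
  refine ⟨A, 3 ^ A, hA1, fun m hm => ?_⟩
  have hm3 : 3 ≤ m := le_trans (Nat.le_self_pow (by omega) 3) hm
  have hmr : (3 : ℝ) ≤ m := by exact_mod_cast hm3
  have hm0 : (0 : ℝ) < m := by linarith
  have hlm : 0 < Real.log m := Real.log_pos (by linarith)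
  -- the root
  set z : ℝ := (m : ℝ) ^ (1 / (A : ℝ)) with hz
  have hz0 : 0 < z := by positivity
  have hzA : z ^ A = m := by
    rw [hz, ← Real.rpow_natCast, ← Real.rpow_mul hm0.le, one_div, inv_mul_cancel₀ hA0.ne', Real.rpow_one]
  have hz3 : 3 ≤ z := by
    by_contra hcon
    push Not at hcon
    have h1 : z ^ A < 3 ^ A := pow_lt_pow_left₀ hcon hz0.le (by omega)
    rw [hzA] at h1
    have h2 : ((3 ^ A : ℕ) : ℝ) ≤ m := by exact_mod_cast hm
    push_cast at h2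
    linarith
  have h1 := hM (m : ℝ) hmr
  have h2 := hM z hz3
  rw [Nat.floor_natCast] at h1
  have e2 : Real.log (Real.log z) = Real.log (Real.log m) - Real.log A := by
    rw [hz, Real.log_rpow hm0, Real.log_mul (by positivity) hlm.ne', one_div, Real.log_inv]
    ring
  rw [e2] at h2
  -- splitting
  have hset : (Icc 1 ⌊z⌋₊).filter Nat.Prime ∪ (Icc 1 m).filter (fun p => p.Prime ∧ m < p ^ A)
      = (Icc 1 m).filter Nat.Prime := by
    ext p
    simp only [mem_union, mem_filter, mem_Icc]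
    constructor
    · rintro (⟨⟨h3, h4⟩, h5⟩ | ⟨h3, h4, h5⟩)
      · refine ⟨⟨h3, ?_⟩, h5⟩
        rw [Nat.le_floor_iff hz0.le] at h4
        have h6 : (p : ℝ) ^ A ≤ m := by rw [← hzA]; gcongr
        have h7 : p ^ A ≤ m := by exact_mod_cast h6
        exact le_trans (Nat.le_self_pow (by omega) p) h7
      · exact ⟨h3, h4⟩
    · rintro ⟨h3, h4⟩
      by_cases h5 : m < p ^ A
      · exact Or.inr ⟨h3, h4, h5⟩
      · refine Or.inl ⟨⟨h3.1, ?_⟩, h4⟩
        rw [Nat.le_floor_iff hz0.le]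
        push Not at h5
        have h6 : (p : ℝ) ^ A ≤ z ^ A := by rw [hzA]; exact_mod_cast h5
        exact le_of_pow_le_pow_left₀ (by omega) hz0.le h6
  have hsum : ∑ p ∈ (Icc 1 m).filter Nat.Prime, (1 : ℝ) / p ≤
      ∑ p ∈ (Icc 1 ⌊z⌋₊).filter Nat.Prime, (1 : ℝ) / p
        + ∑ p ∈ (Icc 1 m).filter (fun p => p.Prime ∧ m < p ^ A), (1 : ℝ) / p := by
    rw [← hset, ← Finset.sum_union_inter]
    have : 0 ≤ ∑ p ∈ (Icc 1 ⌊z⌋₊).filter Nat.Prime ∩ (Icc 1 m).filter (fun p => p.Prime ∧ m < p ^ A),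
        (1 : ℝ) / p := Finset.sum_nonneg fun _ _ => by positivity
    linarith
  rw [abs_le] at h1 h2
  have e3 : (Finset.Icc 1 m).filter (fun p => p.Prime ∧ m < p ^ A) =
      (Icc 1 m).filter (fun p => p.Prime ∧ m < p ^ A) := rfl
  linarith [h1.1, h2.2]

end Pool.Agent.Helper51.HL
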